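import Pool.Agent.W558.S.Base1

/-! W558-ADD: a curve which is transversal to the boundary can be added to the boundary. -/

set_option autoImplicit false
set_option linter.unusedVariables false

universe u

open Polynomial

namespace Pool.Agent.W544.SAdd

open Pool.Agent.W558

section

variable {k E : Type u} [Field k] [Field E] [Algebra k E]

/-- `y` is an equation of `W` on the chart `B` (and `1` if the chart does not meet `W`). -/
structure PC (B W : Subalgebra k E) (y : E) : Prop where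
  mem : y ∈ B
  ne : y ≠ 0
  yes : B ≤ W → NU W y ∧ ∀ a ∈ B, NU W a → ∃ b ∈ B, a = y * b
  no : ¬ B ≤ W → y = 1

lemma adj_clear {A : Subalgebra k E} {g : E} (hg : g ∈ A) (hg0 : g ≠ 0) :
    ∀ b ∈ adj A g⁻¹, ∃ n : ℕ, b * g ^ n ∈ A := by
  refine adj_induction A g⁻¹ ?_ ?_ ?_
  · intro a ha
    exact ⟨0, by rwa [pow_zero, mul_one]⟩
  · rintro a b ⟨n, hn⟩ ⟨m, hm⟩
    refine ⟨n + m, ?_⟩
    have : (a + b) * g ^ (n + m) = a * g ^ n * g ^ m + b * g ^ m * g ^ n := by ring
    rw [this]
    exact A.add_mem (A.mul_mem hn (A.pow_mem hg m)) (A.mul_mem hm (A.pow_mem hg n))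
  · rintro a ⟨n, hn⟩
    refine ⟨n + 1, ?_⟩
    have : a * g⁻¹ * g ^ (n + 1) = a * g ^ n := by
      rw [pow_succ]
      field_simp
    rw [this]
    exact hn

lemma locAt_le {A W : Subalgebra k E} (hW : IsDv A W) {q : Ideal A} (hq : q.IsPrime)
    (hpq : ∀ a : A, NU W (a : E) → a ∈ q) : locAt A q hq ≤ W := by
  rintro x ⟨a, b, hb, h1⟩
  have h2 : ¬ NU W (b : E) := fun h => hb (hpq b h)
  have h3 := (not_NU_iff (hW.le b.2)).1 h2
  have h4 : x = a * (b : E)⁻¹ := by rw [← h1, mul_inv_cancel_right₀ h3.1]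
  rw [h4]
  exact W.mul_mem (hW.le a.2) h3.2

lemma par_false {O : Subalgebra k E} {z w α β : E}
    (hloc : ∀ x y, NU O x → NU O y → NU O (x + y)) (h : Par O z w) (hα : α ∈ O) (hβ : β ∈ O)
    (e : z = z * z * α + w * β) : False := by
  obtain ⟨d, hd, e2⟩ := h.reg (1 - z * α) (O.sub_mem O.one_mem (O.mul_mem h.pu.mem hα)) β hβ
    (by linear_combination e)
  have h3 : z * (1 - z * α) = z * (w * d) := by
    rw [e2] at e
    linear_combination e
  have h4 := mul_left_cancel₀ h.u0 h3
  have h5 : NU O (z * α + w * d) := hloc _ _ (h.pu.mul_right hα) (h.pv.mul_right hd)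
  have h6 : z * α + w * d = 1 := by linear_combination -h4
  rw [h6] at h5
  exact not_NU_one h5

/-- The elements vanishing along the curve are divisible by the local equation. -/
theorem local_eq {A W : Subalgebra k E} [IsNoetherianRing A] (hW : IsDv A W) {q : Ideal A}
    (hq : q.IsPrime) (hpq : ∀ a : A, NU W (a : E) → a ∈ q)
    (hloc : ∀ x y, NU (locAt A q hq) x → NU (locAt A q hq) y → NU (locAt A q hq) (x + y))
    {z w : E} (hz : NU W z) (hw : ¬ NU W w) (hpar : Par (locAt A q hq) z w) :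
    ∀ x ∈ locAt A q hq, NU W x → ∃ b ∈ locAt A q hq, x = z * b := by
  have hOW := locAt_le hW hq hpq
  have hl : IsLocalRing (locAt A q hq) := isLocalRing_of_loc hloc
  let J : Ideal (locAt A q hq) :=
    { carrier := {a | NU W (a : E)}
      add_mem' := fun {a b} ha hb => hW.loc _ _ ha hb
      zero_mem' := NU.zero
      smul_mem' := fun c a ha => by
        change NU W ((c : E) * a)
        exact NU.mul_left ha (hOW c.2) }
  have hJ : ∀ a : locAt A q hq, a ∈ J ↔ NU W (a : E) := fun a => Iff.rfl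
  let ι : A →+* locAt A q hq := (Subalgebra.inclusion (le_locAt (hq := hq))).toRingHom
  have hι : ∀ a : A, ((ι a : locAt A q hq) : E) = a := fun a => rfl
  have hJp : J = hW.pr.map ι := by
    apply le_antisymm
    · intro x hx
      rw [hJ] at hx
      obtain ⟨a, b, hb, h1⟩ := x.2
      have ha : a ∈ hW.pr := by
        rw [hW.mem_pr, ← h1]
        exact hx.mul_right (hW.le b.2)
      have e : x = ⟨(b : E)⁻¹, inv_mem_locAt hb⟩ * ι a := by
        apply Subtype.ext
        change (x : E) = (b : E)⁻¹ * (a : E)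
        rw [← h1]
        have := coe_ne_zero_of_notMem hb
        field_simp
      rw [e]
      exact Ideal.mul_mem_left _ _ (Ideal.mem_map_of_mem ι ha)
    · rw [Ideal.map_le_iff_le_comap]
      intro a ha
      exact ha
  have hfg : J.FG := by
    rw [hJp]
    exact Ideal.FG.map (IsNoetherian.noetherian hW.pr) ι
  have hzO : z ∈ locAt A q hq := hpar.pu.mem
  have hle : J ≤ Ideal.span {(⟨z, hzO⟩ : locAt A q hq)} := by
    refine Submodule.le_of_le_smul_of_le_jacobson_bot (I := IsLocalRing.maximalIdeal _) hfg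
      (IsLocalRing.maximalIdeal_le_jacobson _) ?_
    intro x hx
    have hxW : NU W (x : E) := hx
    obtain ⟨α, hα, β, hβ, h1⟩ := hpar.gen x (hxW.of_le hOW x.2)
    have h2 : NU W (β * w) := by
      have : β * w = x + -(α * z) := by rw [h1]; ring
      rw [this]
      exact hW.loc _ _ hxW (hz.mul_left (hOW hα)).neg
    have h3 : NU W β := ((NU_mul_iff (hOW hβ) (hOW hpar.pv.mem)).1 h2).resolve_right hw
    have e : x = (⟨α, hα⟩ : locAt A q hq) * ⟨z, hzO⟩ +
        (⟨w, hpar.pv.mem⟩ : locAt A q hq) • (⟨β, hβ⟩ : locAt A q hq) := by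
      apply Subtype.ext
      change (x : E) = α * z + w * β
      rw [h1]; ring
    rw [e]
    refine Submodule.add_mem_sup ?_ ?_
    · exact Ideal.mul_mem_left _ _ (Ideal.mem_span_singleton_self _)
    · refine Submodule.smul_mem_smul ?_ h3
      rw [IsLocalRing.mem_maximalIdeal, mem_nonunits_NU]
      exact hpar.pv
  intro x hx hxW
  have h1 : (⟨x, hx⟩ : locAt A q hq) ∈ J := hxW
  obtain ⟨a, ha⟩ := Ideal.mem_span_singleton'.1 (hle h1)
  refine ⟨a, a.2, ?_⟩
  have := congrArg Subtype.val ha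
  change (a : E) * z = x at this
  rw [← this]; ring

/-- The curve is locally principal. -/
theorem local_pc {A W : Subalgebra k E} [Algebra.FiniteType k A] (hW : IsDv A W) (q : Ideal A)
    (hm : q.IsMaximal)
    (H : ∀ O, IsPt A O → O ≤ W → ∃ z w, NU W z ∧ ¬ NU W w ∧ Par O z w) :
    ∃ g : A, g ∉ q ∧ ∃ y, PC (adj A (g : E)⁻¹) W y := by
  have hN : IsNoetherianRing A := Algebra.FiniteType.isNoetherianRing k A
  have hq := hm.isPrime
  by_cases hpq : ∀ a : A, NU W (a : E) → a ∈ q
  · have hO : IsPt A (locAt A q hq) := isPt_locAt hm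
    obtain ⟨z, w, hz, hw, hpar⟩ := H _ hO (locAt_le hW hq hpq)
    have hJ := local_eq hW hq hpq hO.loc hz hw hpar
    obtain ⟨a0, b0, hb0, e0⟩ := hpar.pu.mem
    have hb00 := coe_ne_zero_of_notMem hb0
    have hloc : ∀ f : A, NU W (f : E) → ∃ c s : A, s ∉ q ∧ f * s = a0 * c := by
      intro f hf
      obtain ⟨b, ⟨c', s', hs', e1⟩, e2⟩ := hJ f (le_locAt f.2) hf
      refine ⟨c', b0 * s', fun h => (hq.mem_or_mem h).elim hb0 hs', ?_⟩
      apply Subtype.ext
      push_cast
      rw [← e0, ← e1, e2]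
      ring
    obtain ⟨S, hS⟩ := (IsNoetherian.noetherian hW.pr : hW.pr.FG)
    have hSp : ∀ f ∈ S, NU W (f : E) := by
      intro f hf
      have : f ∈ hW.pr := by
        rw [← hS]
        exact Submodule.subset_span hf
      exact this
    choose! c s hs hcs using hloc
    classical
    let g : A := ∏ f ∈ S, s f
    have hg : g ∉ q := by
      intro h
      obtain ⟨f, hf, h1⟩ := (hq.prod_mem_iff).1 h
      exact hs f (hSp f hf) h1
    have hg0 := coe_ne_zero_of_notMem hg
    have hdiv : ∀ f : A, NU W (f : E) → ∃ c : A, f * g = a0 * c := by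
      intro f hf
      have hf' : f ∈ Submodule.span A (S : Set A) := by
        rw [hS]
        exact hf
      induction hf' using Submodule.span_induction with
      | mem f hfS =>
        have hfS' : f ∈ S := hfS
        refine ⟨c f * ∏ f' ∈ S.erase f, s f', ?_⟩
        have e : g = s f * ∏ f' ∈ S.erase f, s f' := (Finset.mul_prod_erase S s hfS').symm
        rw [e, ← mul_assoc, hcs f (hSp f hfS'), mul_assoc]
      | zero => exact ⟨0, by rw [zero_mul, mul_zero]⟩
      | add a b ha hb iha ihb =>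
        have ha' : NU W (a : E) := by
          rw [hS] at ha
          exact ha
        have hb' : NU W (b : E) := by
          rw [hS] at hb
          exact hb
        obtain ⟨c1, h1⟩ := iha ha'
        obtain ⟨c2, h2⟩ := ihb hb'
        exact ⟨c1 + c2, by rw [add_mul, h1, h2, mul_add]⟩
      | smul r a ha iha =>
        have ha' : NU W (a : E) := by
          rw [hS] at ha
          exact ha
        obtain ⟨c1, h1⟩ := iha ha'
        refine ⟨r * c1, ?_⟩
        rw [smul_eq_mul, mul_assoc, h1]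
        ring
    have hgW : (g : E)⁻¹ ∈ W :=
      ((not_NU_iff (hW.le g.2)).1 (fun h => hg (hpq g h))).2
    have hadj : adj A (g : E)⁻¹ ≤ W := adj_le hW.le hgW
    refine ⟨g, hg, a0, ⟨le_adj _ _ a0.2, ?_, ?_, fun h => absurd hadj h⟩⟩
    · rw [← e0]
      exact mul_ne_zero hpar.u0 hb00
    · intro _
      refine ⟨?_, ?_⟩
      · rw [← e0]
        exact hz.mul_right (hW.le b0.2)
      · intro a ha haW
        obtain ⟨n, hn⟩ := adj_clear g.2 hg0 a ha
        have h1 : NU W ((⟨a * (g : E) ^ n, hn⟩ : A) : E) :=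
          haW.mul_right (W.pow_mem (hW.le g.2) n)
        obtain ⟨c1, h2⟩ := hdiv _ h1
        have h3 : a * (g : E) ^ n * g = a0 * c1 := congrArg Subtype.val h2
        refine ⟨c1 * ((g : E)⁻¹) ^ (n + 1), ?_, ?_⟩
        · exact Subalgebra.mul_mem _ (le_adj _ _ c1.2) (Subalgebra.pow_mem _ (self_mem_adj _ _) _)
        · rw [← mul_assoc, ← h3, inv_pow, pow_succ]
          field_simp
  · push Not at hpq
    obtain ⟨g, hg, hgq⟩ := hpq
    have hg0 := coe_ne_zero_of_notMem hgq
    refine ⟨g, hgq, 1, ⟨Subalgebra.one_mem _, one_ne_zero, ?_, fun _ => rfl⟩⟩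
    intro h
    exact absurd (h (self_mem_adj _ _)) (hg.inv_not_mem hg0)

/-- Finite covers by principal open sets. -/
theorem cover {A : Subalgebra k E} (P : E → Prop)
    (h : ∀ q : Ideal A, q.IsMaximal → ∃ g : A, g ∉ q ∧ P (g : E)) :
    ∃ (n : ℕ) (l : ℕ → E), (∀ b, l b ∈ A ∧ l b ≠ 0 ∧ P (l b)) ∧
      ∀ V : ValuationSubring E, (∀ f ∈ A, f ∈ V) → ∃ b < n, (l b)⁻¹ ∈ V := by
  classical
  let G : Set A := {g | (g : E) ≠ 0 ∧ P (g : E)}
  have hG : Ideal.span G = ⊤ := by
    by_contra hne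
    obtain ⟨q, hq, hle⟩ := Ideal.exists_le_maximal _ hne
    obtain ⟨g, hg, hP⟩ := h q hq
    exact hg (hle (Ideal.subset_span ⟨coe_ne_zero_of_notMem hg, hP⟩))
  have h1 : (1 : A) ∈ Submodule.span A G := by
    have : (1 : A) ∈ Ideal.span G := by rw [hG]; trivial
    exact this
  obtain ⟨S, hSG, hS⟩ := Submodule.mem_span_finite_of_mem_span h1
  obtain ⟨g0, hg0⟩ : S.Nonempty := by
    rw [Finset.nonempty_iff_ne_empty]
    rintro rfl
    rw [Finset.coe_empty, Submodule.span_empty, Submodule.mem_bot] at hS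
    exact one_ne_zero hS
  let L : List A := S.toList
  have hL : ∀ g, g ∈ L ↔ g ∈ S := fun g => Finset.mem_toList
  have hmem : ∀ b, L.getD b g0 ∈ S := by
    intro b
    rw [← hL]
    by_cases hb : b < L.length
    · rw [List.getD_eq_getElem _ _ hb]
      exact List.getElem_mem hb
    · rw [List.getD_eq_default _ _ (not_lt.1 hb), hL]
      exact hg0
  refine ⟨L.length, fun b => ((L.getD b g0 : A) : E), fun b => ⟨(L.getD b g0).2,
    (hSG (hmem b)).1, (hSG (hmem b)).2⟩, ?_⟩
  intro V hV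
  by_contra hcon
  push Not at hcon
  have hS' : ∀ g ∈ S, V.valuation (g : E) < 1 := by
    intro g hg
    rw [← hL] at hg
    obtain ⟨b, hb, rfl⟩ := List.getElem_of_mem hg
    have h2 := hcon b hb
    rw [List.getD_eq_getElem _ _ hb] at h2
    rw [← V.valuation_le_one_iff, not_le, map_inv₀] at h2
    by_contra h3
    rw [not_lt] at h3
    exact absurd h2 (not_lt.2 (inv_le_one_of_one_le₀ h3))
  let I : Ideal A :=
    { carrier := {a | V.valuation (a : E) < 1}
      add_mem' := by
        intro a b ha hb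
        change V.valuation ((a : E) + b) < 1
        exact V.valuation.map_add_lt ha hb
      zero_mem' := by
        change V.valuation (0 : E) < 1
        rw [map_zero]
        exact zero_lt_one
      smul_mem' := by
        intro c a ha
        change V.valuation ((c : E) * a) < 1
        rw [map_mul]
        have h4 : V.valuation (c : E) ≤ 1 := (V.valuation_le_one_iff _).2 (hV c c.2)
        exact lt_of_le_of_lt (mul_le_of_le_one_left' h4) ha }
  have h5 : Submodule.span A (S : Set A) ≤ I := Submodule.span_le.2 fun g hg => hS' g hg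
  have h6 : V.valuation ((1 : A) : E) < 1 := h5 hS
  rw [Subalgebra.coe_one, map_one] at h6
  exact lt_irrefl _ h6

/-- The curve has normal crossings with the boundary. -/
theorem snc_part [PerfectField k] (hchain : S_chain.{u}) (h2 : Algebra.trdeg k E = 2)
    {A W : Subalgebra k E} (hA : Sf A) (hWd : A ≤ W → IsDv A W) {I : Type} {x : I → E}
    (hxA : ∀ i, x i ∈ A) (hS : SNC A x) (hx : ∀ i, A ≤ W → ¬ NU W (x i)) {y : E}
    (hy : PC A W y)
    (H : ∀ O, IsPt A O → O ≤ W → ∃ z w, NU W z ∧ ¬ NU W w ∧ Par O z w ∧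
      ∀ l, NU O (x l) → x l = w) :
    SNC A (fun o : Option I => o.elim y x) := by
  have hsm := hA.sm
  have hft : Algebra.FiniteType k A := inferInstance
  refine SNC.add hS hy.mem ?_
  intro κ _ _ φ hφ
  have hle : A ≤ W := by
    by_contra hn
    have h1 := hy.no hn
    have h3 : (⟨y, hy.mem⟩ : A) = 1 := Subtype.ext h1
    rw [h3, map_one] at hφ
    exact one_ne_zero hφ
  have hW := hWd hle
  obtain ⟨hyN, hyD⟩ := hy.yes hle
  let N : Ideal A := Ideal.span {a | ∃ l, (a : E) = x l ∧ φ a = 0}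
  have hN : N ≤ RingHom.ker φ := Ideal.span_le.2 (by
    rintro a ⟨l, -, h⟩
    exact h)
  have hpq : ∀ a : A, NU W (a : E) → a ∈ RingHom.ker φ := by
    intro a ha
    obtain ⟨b, hb, e⟩ := hyD a a.2 ha
    have e' : a = ⟨y, hy.mem⟩ * ⟨b, hb⟩ := Subtype.ext e
    rw [RingHom.mem_ker, e', map_mul]
    have : φ ⟨y, hy.mem⟩ = 0 := hφ
    rw [this, zero_mul]
  have key : ∀ s : A, φ s ≠ 0 → s * ⟨y, hy.mem⟩ ∉ RingHom.ker φ ^ 2 ⊔ N := by
    intro s hs hmem
    by_cases hqp : ∀ a : A, a ∈ RingHom.ker φ → NU W (a : E)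
    · -- the generic point of the curve
      have hNb : N = ⊥ := by
        rw [eq_bot_iff]
        refine Ideal.span_le.2 ?_
        rintro a ⟨l, e, h⟩
        exfalso
        have := hqp a h
        rw [e] at this
        exact hx l hle this
      rw [hNb, sup_bot_eq] at hmem
      have h3 : RingHom.ker φ ≤ Ideal.span {(⟨y, hy.mem⟩ : A)} := by
        intro a ha
        obtain ⟨b, hb, e⟩ := hyD a a.2 (hqp a ha)
        rw [Ideal.mem_span_singleton]
        exact ⟨⟨b, hb⟩, Subtype.ext e⟩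
      have h4 : RingHom.ker φ ^ 2 ≤ Ideal.span {(⟨y, hy.mem⟩ : A) ^ 2} := by
        rw [← Ideal.span_singleton_pow]
        exact Ideal.pow_right_mono h3 2
      obtain ⟨c, hc⟩ := Ideal.mem_span_singleton.1 (h4 hmem)
      have hy0 : (⟨y, hy.mem⟩ : A) ≠ 0 := fun h => hy.ne (congrArg Subtype.val h)
      have h5 : s = ⟨y, hy.mem⟩ * c := by
        have h6 : (⟨y, hy.mem⟩ : A) * s = ⟨y, hy.mem⟩ * (⟨y, hy.mem⟩ * c) := by
          rw [mul_comm, hc]; ring
        exact mul_left_cancel₀ hy0 h6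
      apply hs
      rw [h5, map_mul]
      have : φ ⟨y, hy.mem⟩ = 0 := hφ
      rw [this, zero_mul]
    · -- closed points
      push Not at hqp
      obtain ⟨a1, ha1, ha2⟩ := hqp
      have hq : (RingHom.ker φ).IsPrime := RingHom.ker_isPrime φ
      have hmax : (RingHom.ker φ).IsMaximal := by
        refine hchain k E h2 A hA hW.pr (RingHom.ker φ) hW.isPrime hq ?_ ?_
        · intro h
          have h3 : (⟨y, hy.mem⟩ : A) ∈ hW.pr := hyN
          rw [h, Ideal.mem_bot] at h3
          exact hy.ne (congrArg Subtype.val h3)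
        · refine lt_of_le_of_ne (fun a ha => hpq a ha) ?_
          intro h
          apply ha2
          have : a1 ∈ hW.pr := by rw [h]; exact ha1
          exact this
      have hPt : IsPt A (locAt A (RingHom.ker φ) hq) := isPt_locAt hmax
      have hOW : locAt A (RingHom.ker φ) hq ≤ W := locAt_le hW hq hpq
      obtain ⟨z, w, hz, hw, hpar, hl⟩ := H _ hPt hOW
      set O := locAt A (RingHom.ker φ) hq with hO
      -- `z` is divisible by `y`
      obtain ⟨d, hd, hzd⟩ : ∃ d ∈ O, z = y * d := by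
        obtain ⟨a, b, hb, e⟩ := hpar.pu.mem
        have hb0 := coe_ne_zero_of_notMem hb
        have h3 : NU W (a : E) := by
          rw [← e]
          exact hz.mul_right (hW.le b.2)
        obtain ⟨a', ha', e'⟩ := hyD a a.2 h3
        refine ⟨a' * (b : E)⁻¹, O.mul_mem (le_locAt ha') (inv_mem_locAt hb), ?_⟩
        rw [← mul_assoc, ← e', ← e]
        field_simp
      let K : Ideal A :=
        { carrier := {a | ∃ α ∈ O, ∃ β ∈ O, (a : E) = z * z * α + w * β}
          add_mem' := by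
            rintro a b ⟨α, hα, β, hβ, e⟩ ⟨α', hα', β', hβ', e'⟩
            refine ⟨α + α', O.add_mem hα hα', β + β', O.add_mem hβ hβ', ?_⟩
            rw [Subalgebra.coe_add, e, e']; ring
          zero_mem' := ⟨0, O.zero_mem, 0, O.zero_mem, by rw [Subalgebra.coe_zero]; ring⟩
          smul_mem' := by
            rintro c a ⟨α, hα, β, hβ, e⟩
            refine ⟨c * α, O.mul_mem (hPt.le c.2) hα, c * β, O.mul_mem (hPt.le c.2) hβ, ?_⟩
            rw [smul_eq_mul, Subalgebra.coe_mul, e]; ring }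
      have hK1 : RingHom.ker φ ^ 2 ≤ K := by
        rw [pow_two, Ideal.mul_le]
        intro a ha b hb
        obtain ⟨α, hα, β, hβ, e⟩ := hpar.gen a (NU_locAt.2 ha)
        obtain ⟨α', hα', β', hβ', e'⟩ := hpar.gen b (NU_locAt.2 hb)
        have hzO := hpar.pu.mem
        have hwO := hpar.pv.mem
        refine ⟨α * α', O.mul_mem hα hα', α * z * β' + β * α' * z + β * β' * w,
          O.add_mem (O.add_mem (O.mul_mem (O.mul_mem hα hzO) hβ')
            (O.mul_mem (O.mul_mem hβ hα') hzO)) (O.mul_mem (O.mul_mem hβ hβ') hwO), ?_⟩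
        rw [Subalgebra.coe_mul, e, e']; ring
      have hK2 : N ≤ K := by
        refine Ideal.span_le.2 ?_
        rintro a ⟨l, e, h⟩
        have h3 : NU O (x l) := by
          rw [← e]
          exact NU_locAt.2 h
        refine ⟨0, O.zero_mem, 1, O.one_mem, ?_⟩
        rw [e, hl l h3]; ring
      obtain ⟨α, hα, β, hβ, e⟩ := (sup_le hK1 hK2) hmem
      have e2 : (s : E) * y = z * z * α + w * β := e
      have hs' : s ∉ RingHom.ker φ := hs
      have hs0 := coe_ne_zero_of_notMem hs'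
      have hsi : (s : E)⁻¹ ∈ O := inv_mem_locAt hs'
      refine par_false hPt.loc hpar (α := (s : E)⁻¹ * d * α) (β := (s : E)⁻¹ * d * β)
        (O.mul_mem (O.mul_mem hsi hd) hα) (O.mul_mem (O.mul_mem hsi hd) hβ) ?_
      have e3 : z = (s : E)⁻¹ * d * ((s : E) * y) := by
        rw [hzd]; field_simp
      calc z = (s : E)⁻¹ * d * ((s : E) * y) := e3
        _ = (s : E)⁻¹ * d * (z * z * α + w * β) := by rw [e2]
        _ = z * z * ((s : E)⁻¹ * d * α) + w * ((s : E)⁻¹ * d * β) := by ring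
  obtain ⟨D, hD1, hD2⟩ := exists_TV φ N hN hφ key
  exact ⟨D, hD1, fun l hl h => hD2 _ (Ideal.subset_span ⟨l, rfl, h⟩)⟩

end

/-- The statement, from the chain condition only. -/
theorem main' (hchain : S_chain.{u}) : S_add.{u} := by
  intro k E _ _ _ _ h2 s W hWd hx hpt
  classical
  have hfinT : Finite s.T := s.finT
  have hfintT : Fintype s.T := Fintype.ofFinite s.T
  have H : ∀ t O, IsPt (s.M.A t) O → O ≤ W → ∃ z w, NU W z ∧ ¬ NU W w ∧ Par O z w ∧
      ∀ l, NU O (s.M.x t l) → s.M.x t l = w := by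
    intro t O hO hOW
    obtain ⟨z, hz, ⟨i, hpar, hj⟩ | ⟨⟨w, hw, hpar⟩, hj⟩⟩ := hpt t O hO hOW
    · refine ⟨z, s.M.x t i, hz, hx t i (hO.le.trans hOW), hpar, ?_⟩
      intro l hl
      by_contra hne
      exact hj l (fun h => hne (by rw [h])) hl
    · exact ⟨z, w, hz, hw, hpar, fun l hl => absurd hl (hj l)⟩
  have hc : ∀ t, ∃ (n : ℕ) (l : ℕ → E), (∀ b, l b ∈ s.M.A t ∧ l b ≠ 0 ∧
      ∃ y, PC (adj (s.M.A t) (l b)⁻¹) W y) ∧
      ∀ V : ValuationSubring E, (∀ f ∈ s.M.A t, f ∈ V) → ∃ b < n, (l b)⁻¹ ∈ V := by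
    intro t
    refine cover (fun g => ∃ y, PC (adj (s.M.A t) g⁻¹) W y) ?_
    intro q hq
    by_cases hle : s.M.A t ≤ W
    · have hsm := (s.sf t).sm
      have hft : Algebra.FiniteType k (s.M.A t) := inferInstance
      refine local_pc (hWd t hle) q hq ?_
      intro O hO hOW
      obtain ⟨z, w, h3, h4, h5, -⟩ := H t O hO hOW
      exact ⟨z, w, h3, h4, h5⟩
    · refine ⟨1, fun h => hq.ne_top ((Ideal.eq_top_iff_one q).2 h), 1,
        ⟨Subalgebra.one_mem _, one_ne_zero, ?_, fun _ => rfl⟩⟩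
      intro h
      exact absurd ((le_adj _ _).trans h) hle
  choose n l hl hV using hc
  let N : ℕ := Finset.univ.sup n
  let h : s.T → Fin N → E := fun t b => l t b
  obtain ⟨M1, hA, hx1, -⟩ := exists_refine s.M h (fun t b => (hl t b).1)
    (fun t b => (hl t b).2.1) (by
      intro t V hV'
      obtain ⟨b, hb, h3⟩ := hV t V hV'
      have hbN : b < N := lt_of_lt_of_le hb (Finset.le_sup (f := n) (Finset.mem_univ t))
      exact ⟨⟨b, hbN⟩, h3⟩)
  have hex : ∀ p : s.T × Fin N, ∃ y, PC (M1.A p) W y := by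
    intro p
    rw [hA]
    exact (hl p.1 p.2).2.2
  choose y hy using hex
  have hAp : ∀ p, M1.A p = adj (s.M.A p.1) (l p.1 p.2)⁻¹ := fun p => by rw [hA]; rfl
  have hxp : ∀ p i, M1.x p i = s.M.x p.1 i := fun p i => by rw [hx1]
  have hleA : ∀ p, s.M.A p.1 ≤ M1.A p := fun p => by rw [hAp]; exact le_adj _ _
  have hgi : ∀ p, (l p.1 p.2)⁻¹ ∈ M1.A p := fun p => by rw [hAp]; exact self_mem_adj _ _
  have hclear : ∀ p, ∀ b ∈ M1.A p, ∃ n : ℕ, b * (l p.1 p.2) ^ n ∈ s.M.A p.1 := by
    intro p b hb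
    rw [hAp] at hb
    exact adj_clear (hl p.1 p.2).1 (hl p.1 p.2).2.1 b hb
  have hsf : ∀ p, Sf (M1.A p) := fun p => s.M.sf_of_le M1 (hleA p) (s.sf p.1)
  have hWd1 : ∀ p, M1.A p ≤ W → IsDv (M1.A p) W := fun p hp =>
    (hWd p.1 ((hleA p).trans hp)).up (hleA p) hp
  have hx2 : ∀ p i, M1.A p ≤ W → ¬ NU W (M1.x p i) := fun p i hp => by
    rw [hxp]
    exact hx p.1 i ((hleA p).trans hp)
  have hptd : ∀ p O, IsPt (M1.A p) O → IsPt (s.M.A p.1) O := fun p O hO =>
    hO.down (hleA p) (hl p.1 p.2).1 (hl p.1 p.2).2.1 (hO.le (hgi p)) (hclear p)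
  have H1 : ∀ p O, IsPt (M1.A p) O → O ≤ W → ∃ z w, NU W z ∧ ¬ NU W w ∧ Par O z w ∧
      ∀ l, NU O (M1.x p l) → M1.x p l = w := by
    intro p O hO hOW
    obtain ⟨z, w, h3, h4, h5, h6⟩ := H p.1 O (hptd p O hO) hOW
    refine ⟨z, w, h3, h4, h5, ?_⟩
    intro i hi
    rw [hxp] at hi ⊢
    exact h6 i hi
  have hgl : ∀ t t' : s.T × Fin N, ∃ n : ℕ, (M1.H t' / M1.H t) ^ n * (y t' / y t) ∈ M1.A t := by
    intro t t'
    obtain ⟨m, hm⟩ := M1.gl t t' _ (hy t').mem
    by_cases hle : M1.A t ≤ W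
    · have hρ := M1.rt t t'
      have hmem : (M1.H t' / M1.H t) ^ (m + 1) * y t' ∈ M1.A t := by
        rw [pow_succ, mul_right_comm]
        exact (M1.A t).mul_mem hm hρ
      have hNU : NU W ((M1.H t' / M1.H t) ^ (m + 1) * y t') := by
        by_cases hle' : M1.A t' ≤ W
        · exact ((hy t').yes hle').1.mul_left (W.pow_mem (hle hρ) _)
        · have h3 : NU W (M1.H t' / M1.H t) := by
            by_contra hn
            apply hle'
            obtain ⟨h4, h5⟩ := (not_NU_iff (hle hρ)).1 hn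
            intro f hf
            obtain ⟨r, hr⟩ := M1.gl t t' f hf
            have h6 : f = (M1.H t' / M1.H t)⁻¹ ^ r * ((M1.H t' / M1.H t) ^ r * f) := by
              rw [← mul_assoc, ← mul_pow, inv_mul_cancel₀ h4, one_pow, one_mul]
            rw [h6]
            exact W.mul_mem (W.pow_mem h5 r) (hle hr)
          have h4 : (M1.H t' / M1.H t) ^ (m + 1) * y t' =
              (M1.H t' / M1.H t) * ((M1.H t' / M1.H t) ^ m * y t') := by ring
          rw [h4]
          exact h3.mul_right (hle hm)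
      obtain ⟨b, hb, e⟩ := ((hy t).yes hle).2 _ hmem hNU
      refine ⟨m + 1, ?_⟩
      have h3 : (M1.H t' / M1.H t) ^ (m + 1) * (y t' / y t) = b := by
        rw [← mul_div_assoc, e, mul_div_cancel_left₀ _ (hy t).ne]
      rw [h3]
      exact hb
    · refine ⟨m, ?_⟩
      rw [(hy t).no hle, div_one]
      exact hm
  let M' : LM (⊥ : Subalgebra k E) ⊤ (s.T × Fin N) (Option s.I) :=
    { A := M1.A, H := M1.H, x := fun p o => o.elim (y p) (M1.x p), sm := M1.sm,
      base := M1.base, H0 := M1.H0, HR := M1.HR, rt := M1.rt, gl := M1.gl, dn := M1.dn,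
      cv := M1.cv
      xA := by
        rintro t (_ | i)
        · exact (hy t).mem
        · exact M1.xA t i
      x0 := by
        rintro t (_ | i)
        · exact (hy t).ne
        · exact M1.x0 t i
      gi := by
        rintro t t' (_ | i)
        · exact hgl t t'
        · exact M1.gi t t' i
      snc := fun t => snc_part hchain h2 (hsf t) (hWd1 t) (M1.xA t) (M1.snc t)
        (fun i hp => hx2 t i hp) (hy t) (H1 t) }
  have hirr : Irr M' (fun o : Option s.I => o.elim W s.W) := by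
    rintro t (_ | i)
    · change (y t)⁻¹ ∈ M1.A t ∨ (IsDv (M1.A t) W ∧ NU W (y t) ∧
        ∀ a ∈ M1.A t, NU W a → ∃ b ∈ M1.A t, a = y t * b)
      by_cases hle : M1.A t ≤ W
      · right
        exact ⟨hWd1 t hle, (hy t).yes hle⟩
      · left
        rw [(hy t).no hle, inv_one]
        exact (M1.A t).one_mem
    · change (M1.x t i)⁻¹ ∈ M1.A t ∨ (IsDv (M1.A t) (s.W i) ∧ NU (s.W i) (M1.x t i) ∧
        ∀ a ∈ M1.A t, NU (s.W i) a → ∃ b ∈ M1.A t, a = M1.x t i * b)
      rw [hxp]
      rcases s.irr t.1 i with h3 | ⟨h3, h4, h5⟩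
      · exact Or.inl (hleA t h3)
      · by_cases hle : M1.A t ≤ s.W i
        · right
          refine ⟨h3.up (hleA t) hle, h4, ?_⟩
          intro a ha haN
          obtain ⟨m, hm⟩ := hclear t a ha
          have h6 := haN.mul_right ((s.W i).pow_mem (hle (hleA t (hl t.1 t.2).1)) m)
          obtain ⟨b, hb, e⟩ := h5 _ hm h6
          refine ⟨b * ((l t.1 t.2)⁻¹) ^ m,
            (M1.A t).mul_mem (hleA t hb) ((M1.A t).pow_mem (hgi t) m), ?_⟩
          rw [← mul_assoc, ← e, mul_assoc, ← mul_pow, mul_inv_cancel₀ (hl t.1 t.2).2.1, one_pow,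
            mul_one]
        · left
          have h6 : NU (s.W i) (l t.1 t.2) := by
            by_contra hn
            apply hle
            rw [hAp]
            exact adj_le h3.le ((not_NU_iff (h3.le (hl t.1 t.2).1)).1 hn).2
          obtain ⟨b, hb, e⟩ := h5 _ (hl t.1 t.2).1 h6
          have h7 : (s.M.x t.1 i)⁻¹ = b * (l t.1 t.2)⁻¹ := by
            have h8 := s.M.x0 t.1 i
            have h9 := (hl t.1 t.2).2.1
            have h10 : b ≠ 0 := by
              rintro rfl
              rw [mul_zero] at e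
              exact h9 e
            rw [e]
            field_simp
          rw [h7]
          exact (M1.A t).mul_mem (hleA t hb) (hgi t)
  have hdvd : ∀ (V : Subalgebra k E) (t : s.T × Fin N), IsDv (M1.A t) V →
      IsDv (s.M.A t.1) V := fun V t hV =>
    hV.down (hleA t) (hl t.1 t.2).1 (hl t.1 t.2).2.1 (hV.le (hgi t)) (hclear t)
  refine ⟨⟨s.T × Fin N, Option s.I, inferInstance, inferInstance, M', _, hsf, hirr⟩, ?_, ?_⟩
  · refine ⟨fun t' => ⟨t'.1, hleA t'⟩, ?_, ?_⟩
    · rintro V ⟨t', hV⟩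
      exact Or.inl ⟨t'.1, hdvd V t' hV⟩
    · rintro V ⟨t', hV⟩ ⟨t, i, h3, h4⟩
      refine ⟨t', some i, hV, ?_⟩
      change NU V (M1.x t' i)
      rw [hxp, ← s.M.nu_iff h3.le ((hleA t').trans hV.le) i]
      exact h4
  · rintro ⟨t', hV⟩
    exact ⟨t', none, hV, ((hy t').yes hV.le).1⟩

theorem main (hpar : S_par.{u}) (hfin : S_fin.{u}) (hchain : S_chain.{u}) : S_add.{u} :=
  main' hchain

end Pool.Agent.W544.SAdd
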